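import Mathlib
import Pool.Agent.W543.MO.Parts

/-!
# Finite-dimensional Chow groups
-/

set_option autoImplicit false
set_option linter.unusedSectionVars false

open CategoryTheory AlgebraicGeometry

namespace Pool.Agent.W358.MO

open Pool.Agent.H914 Pool.Agent.H914.VarClass Pool.Agent.H914.VarClass.Obj Pool.Agent.W492.BB
  Pool.Agent.W550.Corr Pool.Agent.W484.CK

section
variable {k : Type} [Field k] {𝒱 : VarClass k} {C : TheoryData.{0, 0, 0} 𝒱 ℚ} {K : Type}
  [Field K] [CharZero K] {H : WeilTheoryData.{0, 0, 0} C K} [hC : IsChow C] [hH : IsWeil H]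

theorem cl_smul {X : 𝒱.Obj} (c : ℚ) (z : C.A X) : H.cl (c • z) = (c : K) • H.cl z := by
  have h1 : H.cl (algebraMap ℚ (C.A X) c) = algebraMap K (H.A X) (c : K) := by
    have h2 : (H.cl).comp (algebraMap ℚ (C.A X)) =
        (algebraMap K (H.A X)).comp (algebraMap ℚ K) := Subsingleton.elim _ _
    have h3 := RingHom.congr_fun h2 c
    rw [RingHom.comp_apply, RingHom.comp_apply, eq_ratCast (algebraMap ℚ K)] at h3
    exact h3
  rw [Algebra.smul_def, map_mul, h1, Algebra.smul_def]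

/-- The degree of zero-cycles. -/
theorem exists_deg (hS : IsStandard H) (A Z : 𝒱.Obj) :
    ∃ deg : C.A A →ₗ[ℚ] ℚ, ∀ z ∈ C.gr A A.dim,
    C.push (snd A Z) (C.pull (fst A Z) z) = deg z • 1 := by
  have h1 : (1 : C.A Z) ≠ 0 := by
    intro h0
    have := hS.nontrivial Z
    have h2 := congrArg (H.cl (X := Z)) h0
    rw [map_one, map_zero] at h2
    exact one_ne_zero h2
  have hker : LinearMap.ker (LinearMap.toSpanSingleton ℚ (C.A Z) 1) = ⊥ := by
    rw [LinearMap.ker_eq_bot']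
    intro c hc
    rw [LinearMap.toSpanSingleton_apply] at hc
    exact (smul_eq_zero.1 hc).resolve_right h1
  obtain ⟨φ, hφ⟩ := LinearMap.exists_leftInverse_of_injective _ hker
  refine ⟨φ ∘ₗ C.push (snd A Z) ∘ₗ (C.pull (fst A Z)).toLinearMap, fun z hz => ?_⟩
  have h2 := C.push_mem (snd A Z) (C.pull_mem (fst A Z) hz)
  have h3 : (A.dim : ℤ) + 1 * ((Z.dim : ℤ) - (A.prod Z).dim) = 0 := by
    rw [Obj.dim_prod]
    push_cast
    ring
  rw [h3] at h2
  obtain ⟨c, hc⟩ := hS.chow_zero _ _ h2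
  change C.push (snd A Z) (C.pull (fst A Z) z) = _ at hc
  have h4 : φ (C.push (snd A Z) (C.pull (fst A Z) z)) = c := by
    rw [hc]
    have h5 := LinearMap.congr_fun hφ c
    rw [LinearMap.comp_apply, LinearMap.toSpanSingleton_apply, LinearMap.id_apply] at h5
    exact h5
  change _ = φ (C.push (snd A Z) (C.pull (fst A Z) z)) • (1 : C.A Z)
  rw [h4, hc]

/-- The trace of a zero-cycle. -/
theorem tr_deg (hS : IsStandard H) (X : 𝒱.Obj) : ∃ (deg : C.A X →ₗ[ℚ] ℚ) (τ : K),
    ∀ z ∈ C.gr X X.dim, H.tr X (H.cl z) = (deg z : K) * τ := by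
  obtain ⟨deg, hdeg⟩ := exists_deg hS X X
  obtain ⟨a, -, ha1, -⟩ := exists_deg_one C X
  refine ⟨deg, H.tr X (H.cl a), fun z hz => ?_⟩
  have e1 : H.tr (X.prod X) (H.cl (C.pull (fst X X) z * C.pull (snd X X) a)) =
      (deg z : K) * H.tr X (H.cl a) := by
    rw [← H.tr_push (snd X X), ← H.cl_push, C.proj_right, hdeg z hz, smul_mul_assoc, one_mul,
      cl_smul, map_smul, smul_eq_mul]
  have e2 : H.tr (X.prod X) (H.cl (C.pull (fst X X) z * C.pull (snd X X) a)) =
      H.tr X (H.cl z) := by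
    rw [← H.tr_push (fst X X), ← H.cl_push, C.proj_left, ha1 X, mul_one]
  rw [← e2, e1]

end

theorem t_FINCHOW : Pool.Agent.W543.MO.FINCHOW_stmt := by
  classical
  intro k _ 𝒱 C hC K _ _ H hH hS X hX i
  rcases lt_or_ge i 0 with hi | hi
  · rw [C.gr_neg X i hi]; infer_instance
  rcases lt_or_ge (X.dim : ℤ) i with hd | hd
  · have : C.gr X i = ⊥ := (Submodule.eq_bot_iff _).2 fun z hz => hS.chow_top X i z hd hz
    rw [this]; infer_instance
  obtain ⟨n, rfl⟩ := Int.eq_ofNat_of_zero_le hi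
  have hn : n ≤ X.dim := by exact_mod_cast hd
  obtain ⟨deg, τ, hdeg⟩ := tr_deg hS X
  have hfinX := hS.finite X
  obtain ⟨S, hS1, hS2, hS3⟩ := exists_linearIndependent K
    {c : H.A X | ∃ w ∈ C.gr X ((X.dim - n : ℕ) : ℤ), c = H.cl w}
  have hfin : S.Finite := hS3.setFinite
  have hft := hfin.fintype
  have hD : ∀ t : S, ∃ w ∈ C.gr X ((X.dim - n : ℕ) : ℤ), (t : H.A X) = H.cl w := fun t => hS1 t.2
  choose w hw hcl using hD
  let φ : C.gr X (n : ℤ) →ₗ[ℚ] (S → ℚ) :=
    LinearMap.pi fun t => deg ∘ₗ LinearMap.mulRight ℚ (w t) ∘ₗ (C.gr X (n : ℤ)).subtype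
  have hφ : ∀ z t, φ z t = deg (z.1 * w t) := fun _ _ => rfl
  have hdim : (n : ℤ) + ((X.dim - n : ℕ) : ℤ) = X.dim := by omega
  have hinj : Function.Injective φ := by
    rw [← LinearMap.ker_eq_bot, LinearMap.ker_eq_bot']
    intro z hz
    have h1 : ∀ c ∈ Submodule.span K
        {c : H.A X | ∃ w ∈ C.gr X ((X.dim - n : ℕ) : ℤ), c = H.cl w},
        H.tr X (H.cl z.1 * c) = 0 := by
      rw [← hS2]
      intro c hc
      induction hc using Submodule.span_induction with
      | mem c hc =>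
        have h2 : c = H.cl (w ⟨c, hc⟩) := hcl ⟨c, hc⟩
        rw [h2, ← map_mul]
        have h3 := C.mul_mem z.2 (hw ⟨c, hc⟩)
        rw [hdim] at h3
        rw [hdeg _ h3]
        have h4 : deg (z.1 * w ⟨c, hc⟩) = 0 := by
          rw [← hφ, hz]; rfl
        rw [h4, Rat.cast_zero, zero_mul]
      | zero => rw [mul_zero, map_zero]
      | add x y _ _ hx hy => rw [mul_add, map_add, hx, hy, add_zero]
      | smul a x _ hx => rw [mul_smul_comm, map_smul, hx, smul_zero]
    apply Subtype.ext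
    refine hX n z.1 z.2 ?_
    intro j w' hj hw'
    have hj' : j = X.dim - n := by omega
    subst hj'
    show H.tr X (H.cl (z.1 * w')) = 0
    rw [map_mul]
    exact h1 _ (Submodule.subset_span ⟨w', hw', rfl⟩)
  exact Module.Finite.of_injective φ hinj

end Pool.Agent.W358.MO
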